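import Pool.Agent.KS6_71.PC.Fam2

/-!
# MP_0168d2_co: palindromic complexity under a symmetric order condition

Q1 is true for at most three letters and false for every larger alphabet, and all the possible
values of the palindromic complexity beyond length three are determined.
-/

namespace Pool.Agent.Results.MP_0168d2_co.Sharp

open Pool.Agent.KS6_71.PC

/-- Q1 for alphabets with exactly `k` letters. -/
def Q1 (k : ℕ) : Prop :=
  ∀ (A : Type) [Fintype A] (L : Set (List A)), Fintype.card A = k → Hyp L →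
    ∀ n, (Even n → PC L n = 1) ∧ (Odd n → PC L n = k)

theorem realise (k : ℕ) (e o : ℕ) (he : e ≤ 1) (ho : o ≤ k) (heo : 4 ≤ e + o) :
    ∃ L : Set (List (Fin k)), Hyp L ∧
      ∀ n, 2 ≤ n → PC L (2 * n) = e ∧ PC L (2 * n + 1) = o := by
  rcases Nat.eq_zero_or_pos e with rfl | he'
  · -- `c = 2`, `j = k + 3 - o`
    have h1 : 2 < k + 3 - o := by omega
    have h2 : k + 3 - o < k := by omega
    refine ⟨LU k 2 (k + 3 - o), LU_hyp (by omega) le_rfl h1 h2, fun n hn => ⟨?_, ?_⟩⟩
    · obtain ⟨m, rfl⟩ : ∃ m, n = m + 2 := ⟨n - 2, by omega⟩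
      exact LU_even_two h1 h2 m
    · obtain ⟨m, rfl⟩ : ∃ m, n = m + 1 := ⟨n - 1, by omega⟩
      have := LU_odd (k := k) (c := 2) (by omega) le_rfl h1 h2 m
      rw [show 2 * (m + 1) + 1 = 2 * m + 3 by ring, this]
      omega
  · have h0 : e = 1 := by omega
    subst h0
    have h1 : 1 < k + 2 - o := by omega
    have h2 : k + 2 - o < k := by omega
    refine ⟨LU k 1 (k + 2 - o), LU_hyp le_rfl (by omega) h1 h2, fun n hn => ⟨?_, ?_⟩⟩
    · exact LU_even_one h1 h2 n
    · obtain ⟨m, rfl⟩ : ∃ m, n = m + 1 := ⟨n - 1, by omega⟩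
      have := LU_odd (k := k) (c := 1) le_rfl (by omega) h1 h2 m
      rw [show 2 * (m + 1) + 1 = 2 * m + 3 by ring, this]
      omega

/-- **MP_0168d2_co, Q1.** Call a language admissible if it satisfies the hypotheses of Q1.

1. Q1 is true on `k` letters if and only if `k ≤ 3`.
2. Every admissible language on `k` letters satisfies `PC(n) + PC(n+1) ≥ min(k+1, 4)` for all `n`.
3. Let `k ≥ 3`. For every admissible language on `k` letters and every `n`, the pair
   `(e, o) = (PC(2n), PC(2n+1))` satisfies `e ≤ 1`, `o ≤ k`, `e + o ≥ 4`; and every such pair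
   `(e, o)` equals `(PC(2n), PC(2n+1))` for all `n ≥ 2` for some admissible language on `k`
   letters. -/
theorem result :
    (∀ k : ℕ, Q1 k ↔ k ≤ 3) ∧
    (∀ (A : Type) [Fintype A] (L : Set (List A)), Hyp L →
      ∀ n, min (Fintype.card A + 1) 4 ≤ PC L n + PC L (n + 1)) ∧
    (∀ k : ℕ, 3 ≤ k → ∀ e o : ℕ,
      ((∃ L : Set (List (Fin k)), Hyp L ∧ ∃ n, PC L (2 * n) = e ∧ PC L (2 * n + 1) = o) →
        e ≤ 1 ∧ o ≤ k ∧ 4 ≤ e + o) ∧
      (e ≤ 1 ∧ o ≤ k ∧ 4 ≤ e + o →
        ∃ L : Set (List (Fin k)), Hyp L ∧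
          ∀ n, 2 ≤ n → PC L (2 * n) = e ∧ PC L (2 * n + 1) = o)) := by
  refine ⟨fun k => ⟨fun hQ => ?_, fun hk A _ L hA hL n => ?_⟩, fun A _ L hL n => hyp_lower hL n,
    fun k hk e o => ⟨?_, ?_⟩⟩
  · by_contra hk
    push Not at hk
    obtain ⟨L, hL, hPC⟩ := realise k 1 3 le_rfl (by omega) (by omega)
    have h1 := (hQ (Fin k) L (by simp) hL 5).2 (by decide)
    have h2 := (hPC 2 le_rfl).2
    norm_num at h2
    omega
  · have := equality_of_card_le_three hL (by omega) n
    rw [hA] at this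
    exact this
  · rintro ⟨L, hL, n, h1, h2⟩
    have h3 := hyp_upper hL n
    have h4 := hyp_lower hL (2 * n)
    rw [Fintype.card_fin] at h3 h4
    omega
  · rintro ⟨h1, h2, h3⟩
    exact realise k e o h1 h2 h3

end Pool.Agent.Results.MP_0168d2_co.Sharp
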